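import Mathlib
import Pool.Agent.H.MP_94066b_nt.A

set_option autoImplicit false

namespace Pool.Agent.Results.MP_94066b_nt.Toms

theorem result (a b c : ℕ) (hb : b ≠ 0) : ∃ (L n : ℕ) (q m : Fin n → ℕ), 0 < L ∧ 0 < n ∧
    (∀ i, 0 < q i ∧ 0 < m i ∧ Nat.Coprime (q i) (m i) ∧ Nat.Coprime L (m i) ∧ Nat.Coprime L (q i)) ∧
    ∀ x : ℕ, (x = 0 ∨ a * x % b + c ≤ x) ↔
      ∀ i, L * x ∈ AddSubmonoid.closure ({q i, m i} : Set ℕ) :=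
  Pool.Agent.H.MP_94066b_nt.main a b c hb

end Pool.Agent.Results.MP_94066b_nt.Toms
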